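import Pool.Agent.W323.SC.Stm

set_option autoImplicit false
open Finset
open scoped Classical

namespace Pool.Agent.W270.SC

open Pool.Agent.W323.SC

theorem sa : S_A := by
  intro α ι κ _ a b _ y _
  have e3 : (∑ p, y p) * (∑ S ∈ (univ : Finset (Finset α)).filter
        (fun S => 4 ≤ S.card ∧ nst a b S), w y S) =
      ∑ S ∈ (univ : Finset (Finset α)).filter (fun S => 4 ≤ S.card ∧ nst a b S),
        w y S * ∑ p ∈ univ \ S, y p +
      ∑ S ∈ (univ : Finset (Finset α)).filter (fun S => 4 ≤ S.card ∧ nst a b S),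
        w y S * ∑ p ∈ S, y p := by
    rw [mul_comm, sum_mul, ← sum_add_distrib]
    refine sum_congr rfl fun S _ => ?_
    rw [← mul_add, sum_sdiff (subset_univ S)]
  rw [e3]
  congr 1
  have e4 : ∑ S ∈ (univ : Finset (Finset α)).filter (fun S => 4 ≤ S.card ∧ nst a b S),
        w y S * ∑ p ∈ univ \ S, y p =
      ∑ x ∈ ((univ : Finset (Finset α)).filter (fun S => 4 ≤ S.card ∧ nst a b S)).sigma
        (fun S => univ \ S), w y (insert x.2 x.1) := by
    rw [sum_sigma]
    refine sum_congr rfl fun S _ => ?_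
    rw [mul_sum]
    refine sum_congr rfl fun p hp => ?_
    unfold w
    have hp' : p ∉ S := (mem_sdiff.1 hp).2
    rw [prod_insert hp', mul_comm]
  have e5 : ∑ U ∈ (univ : Finset (Finset α)).filter (fun U => 5 ≤ U.card),
        (n1 a b U : ℝ) * w y U =
      ∑ x ∈ ((univ : Finset (Finset α)).filter (fun U => 5 ≤ U.card)).sigma
        (fun U => U.filter (fun p => nst a b (U.erase p))), w y x.1 := by
    rw [sum_sigma]
    refine sum_congr rfl fun U _ => ?_
    show (n1 a b U : ℝ) * w y U = ∑ _s ∈ U.filter (fun p => nst a b (U.erase p)), w y U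
    rw [sum_const, nsmul_eq_mul]
    rfl
  rw [e4, e5]
  refine sum_bij' (fun x _ => (⟨insert x.2 x.1, x.2⟩ : Σ _ : Finset α, α))
    (fun x _ => (⟨x.1.erase x.2, x.2⟩ : Σ _ : Finset α, α)) ?_ ?_ ?_ ?_ ?_
  · rintro ⟨S, p⟩ hx
    simp only [mem_sigma, mem_filter, mem_univ, true_and, mem_sdiff] at hx ⊢
    obtain ⟨⟨h1, h2⟩, h3⟩ := hx
    refine ⟨?_, mem_insert_self _ _, ?_⟩
    · rw [card_insert_of_notMem h3]
      omega
    · rw [erase_insert h3]
      exact h2
  · rintro ⟨U, p⟩ hx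
    simp only [mem_sigma, mem_filter, mem_univ, true_and, mem_sdiff] at hx ⊢
    obtain ⟨h1, h2, h3⟩ := hx
    refine ⟨⟨?_, h3⟩, notMem_erase _ _⟩
    rw [card_erase_of_mem h2]
    omega
  · rintro ⟨S, p⟩ hx
    simp only [mem_sigma, mem_filter, mem_univ, true_and, mem_sdiff] at hx
    obtain ⟨⟨h1, h2⟩, h3⟩ := hx
    simp only
    rw [erase_insert h3]
  · rintro ⟨U, p⟩ hx
    simp only [mem_sigma, mem_filter, mem_univ, true_and] at hx
    obtain ⟨h1, h2, h3⟩ := hx
    simp only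
    rw [insert_erase h2]
  · rintro ⟨S, p⟩ _
    rfl


end Pool.Agent.W270.SC
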